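import Pool.Agent.Q216.SM.Main

/-!
# Deciding whether a submodular polynomial of degree 4 is expressible by binary submodular
functions is `coNP`-hard
-/

set_option autoImplicit false

namespace Pool.Agent.Results.MP_cb9cb0_lc.RecognitionCoNPHard

open Pool.Agent.NPC Pool.Agent.H673R2 Pool.Agent.Q216.SM

/-- (1) Deciding whether the polynomial is expressible by binary submodular functions is `coNP`-hard
on the instances which are (coefficient lists of) submodular polynomials of degree 4.
(2) So a polynomial-time algorithm for this promise problem would give `P = NP`. -/
theorem result :
    CoNPHardOn (fun p : Inst => p.Valid ∧ Submodular p.eval)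
      (fun p : Inst => Expressible p.eval) ∧
    ∀ V : List Bool → List Bool, PolyTime V →
      (∀ p : Inst, p.Valid → Submodular p.eval → (Expressible p.eval ↔ V (bits p) = [true])) →
      ∀ L : Set (List Bool), InNP L → InP L :=
  ⟨hard, fun _ hV h => collapse hard hV fun p hp => h p hp.1 hp.2⟩

end Pool.Agent.Results.MP_cb9cb0_lc.RecognitionCoNPHard
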